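import Mathlib
import Pool.Agent.Y272.LC.Stm

set_option autoImplicit false

/-! LC-PT: a point is hit by almost no parameter ray. -/

open Complex Filter Topology Metric Set MeasureTheory

namespace Pool.Agent.Y761.LC

open Pool.Agent.H713R2 Pool.Agent.W677.Mar Pool.Agent.Y272.TY

/-- Jensen's inequality on circles. -/
theorem jensen_le {f : ℂ → ℂ} {R : ℝ} (hR0 : 0 < R) (hR : R < 1)
    (hf : DifferentiableOn ℂ f (ball 0 1)) (h0 : f 0 ≠ 0) :
    Real.log ‖f 0‖ ≤ Real.circleAverage (fun z => Real.log ‖f z‖) 0 R := by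
  have hRa : |R| = R := abs_of_pos hR0
  have hA : AnalyticOnNhd ℂ f (closedBall 0 |R|) := by
    have h1 : AnalyticOnNhd ℂ f (ball 0 1) := hf.analyticOnNhd isOpen_ball
    exact h1.mono (by rw [hRa]; exact closedBall_subset_ball hR)
  rw [hA.circleAverage_log_norm hR0.ne' h0]
  have : 0 ≤ ∑ᶠ u, MeromorphicOn.divisor f (closedBall 0 |R|) u * Real.log (R * ‖0 - u‖⁻¹) := by
    refine finsum_nonneg fun u => ?_
    by_cases hu : u ∈ closedBall (0 : ℂ) |R|
    · refine mul_nonneg (mod_cast (MeromorphicOn.AnalyticOnNhd.divisor_nonneg hA) u) ?_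
      rw [zero_sub, norm_neg]
      rw [mem_closedBall_zero_iff, hRa] at hu
      by_cases hu0 : ‖u‖ = 0
      · rw [hu0]; simp
      · refine Real.log_nonneg ?_
        have hup : 0 < ‖u‖ := lt_of_le_of_ne (norm_nonneg _) (Ne.symm hu0)
        rw [← div_eq_mul_inv, le_div_iff₀ hup, one_mul]
        exact hu
    · rw [Function.locallyFinsuppWithin.apply_eq_zero_of_notMem _ hu]; simp
  linarith

/-- a bounded analytic function does not have radial limit zero on a set of positive measure -/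
theorem riesz0 {h : ℂ → ℂ} {B r0 : ℝ} (hd : DifferentiableOn ℂ h (ball 0 1)) (h0 : h 0 ≠ 0)
    (hB : ∀ x ∈ ball (0 : ℂ) 1, ‖h x‖ ≤ B) (hr0 : 0 ≤ r0) (hr1 : r0 < 1)
    (hz : ∀ x : ℂ, r0 < ‖x‖ → ‖x‖ < 1 → h x ≠ 0) :
    ∀ᵐ θ : ℝ, ¬ Tendsto (fun ρ : ℝ => h (pt ρ θ)) (𝓝[<] 1) (𝓝 0) := by
  have hpi : 0 < 2 * Real.pi := by positivity
  -- radii
  set R : ℕ → ℝ := fun n => 1 - (1 - r0) / ((n : ℝ) + 2) with hR
  have hRp : ∀ n, r0 < R n := by
    intro n
    have hn : (0 : ℝ) ≤ n := Nat.cast_nonneg n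
    have h1 : (1 - r0) / ((n : ℝ) + 2) < 1 - r0 := by
      rw [div_lt_iff₀ (by linarith)]
      nlinarith
    simp only [hR]
    linarith
  have hRl : ∀ n, R n < 1 := by
    intro n
    have hn : (0 : ℝ) ≤ n := Nat.cast_nonneg n
    have h1 : 0 < (1 - r0) / ((n : ℝ) + 2) := div_pos (by linarith) (by linarith)
    simp only [hR]
    linarith
  have hR0 : ∀ n, 0 < R n := fun n => lt_of_le_of_lt hr0 (hRp n)
  have hRt : Tendsto R atTop (𝓝[<] 1) := by
    refine tendsto_nhdsWithin_iff.2 ⟨?_, Eventually.of_forall hRl⟩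
    have h1 : Tendsto (fun n : ℕ => (1 - r0) / ((n : ℝ) + 2)) atTop (𝓝 0) := by
      refine Tendsto.div_atTop tendsto_const_nhds ?_
      exact tendsto_atTop_add_const_right _ _ tendsto_natCast_atTop_atTop
    have h2 := (tendsto_const_nhds (x := (1 : ℝ))).sub h1
    rw [sub_zero] at h2
    exact h2
  have hnorm : ∀ n θ, ‖pt (R n) θ‖ = R n := fun n θ => norm_pt _ _ (hR0 n).le
  have hmem : ∀ n θ, pt (R n) θ ∈ ball (0 : ℂ) 1 := by
    intro n θ
    rw [mem_ball_zero_iff, hnorm]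
    exact hRl n
  have hne : ∀ n θ, h (pt (R n) θ) ≠ 0 := by
    intro n θ
    exact hz _ (by rw [hnorm]; exact hRp n) (by rw [hnorm]; exact hRl n)
  set B' : ℝ := max B 1 with hB'
  have hB1 : 1 ≤ B' := le_max_right _ _
  set g : ℕ → ℝ → ℝ := fun n θ => Real.log B' - Real.log ‖h (pt (R n) θ)‖ with hg
  have hgc : ∀ n, Continuous (g n) := by
    intro n
    have h1 : Continuous fun θ => h (pt (R n) θ) := by
      rw [← continuousOn_univ]
      exact hd.continuousOn.comp (continuous_pt _).continuousOn (fun θ _ => hmem n θ)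
    refine continuous_const.sub ?_
    exact h1.norm.log fun θ => norm_ne_zero_iff.2 (hne n θ)
  have hg0 : ∀ n θ, 0 ≤ g n θ := by
    intro n θ
    have h1 : ‖h (pt (R n) θ)‖ ≤ B' := (hB _ (hmem n θ)).trans (le_max_left _ _)
    have h2 := Real.log_le_log (norm_pos_iff.2 (hne n θ)) h1
    simp only [hg]
    linarith
  set K : ℝ := 2 * Real.pi * (Real.log B' - Real.log ‖h 0‖) with hK
  have hint : ∀ n (a : ℝ), ∫ θ in a..(a + 2 * Real.pi), g n θ ≤ K := by
    intro n a
    have hper : Function.Periodic (g n) (2 * Real.pi) := by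
      intro θ
      simp only [hg, pt_periodic (R n) θ]
    rw [hper.intervalIntegral_add_eq a 0, zero_add]
    have hJ := jensen_le (hR0 n) (hRl n) hd h0
    rw [Real.circleAverage] at hJ
    have h1 : Continuous fun θ => Real.log ‖h (pt (R n) θ)‖ := by
      have h2 : Continuous fun θ => Real.log B' - g n θ := continuous_const.sub (hgc n)
      refine h2.congr fun θ => ?_
      simp only [hg]
      ring
    have h3 : ∫ θ in (0 : ℝ)..(2 * Real.pi), g n θ =
        2 * Real.pi * Real.log B' - ∫ θ in (0 : ℝ)..(2 * Real.pi), Real.log ‖h (pt (R n) θ)‖ := by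
      simp only [hg]
      rw [intervalIntegral.integral_sub _root_.intervalIntegrable_const
        (h1.intervalIntegrable _ _), intervalIntegral.integral_const]
      simp
    rw [h3, hK]
    have h4 : Real.log ‖h 0‖ ≤ (2 * Real.pi)⁻¹ *
        ∫ θ in (0 : ℝ)..(2 * Real.pi), Real.log ‖h (pt (R n) θ)‖ := hJ
    have h5 := mul_le_mul_of_nonneg_left h4 hpi.le
    rw [← mul_assoc, mul_inv_cancel₀ hpi.ne', one_mul] at h5
    linarith
  -- reduction to intervals
  have huniv : (⋃ k : ℤ, Ioc (k • (2 * Real.pi)) ((k + 1) • (2 * Real.pi))) = univ :=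
    iUnion_Ioc_zsmul hpi
  rw [← Measure.restrict_univ (μ := volume), ← huniv, ae_restrict_iUnion_iff]
  intro k
  set a : ℝ := k • (2 * Real.pi) with ha
  have hb : ((k + 1) • (2 * Real.pi) : ℝ) = a + 2 * Real.pi := by
    rw [add_zsmul, one_zsmul]
  rw [hb]
  have hab : a ≤ a + 2 * Real.pi := by linarith
  have hF : ∀ n, ∫⁻ θ in Ioc a (a + 2 * Real.pi), ENNReal.ofReal (g n θ) ≤ ENNReal.ofReal K := by
    intro n
    have hi : IntegrableOn (g n) (Ioc a (a + 2 * Real.pi)) :=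
      ((hgc n).integrableOn_Icc).mono_set Ioc_subset_Icc_self
    rw [← ofReal_integral_eq_lintegral_ofReal hi (Eventually.of_forall (hg0 n)),
      ← intervalIntegral.integral_of_le hab]
    exact ENNReal.ofReal_le_ofReal (hint n a)
  have hmeas : ∀ n, Measurable fun θ => ENNReal.ofReal (g n θ) := fun n =>
    (hgc n).measurable.ennreal_ofReal
  have hFatou : ∫⁻ θ in Ioc a (a + 2 * Real.pi), liminf (fun n => ENNReal.ofReal (g n θ)) atTop ≤
      liminf (fun n => ∫⁻ θ in Ioc a (a + 2 * Real.pi), ENNReal.ofReal (g n θ)) atTop :=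
    lintegral_liminf_le hmeas
  have hle : liminf (fun n => ∫⁻ θ in Ioc a (a + 2 * Real.pi), ENNReal.ofReal (g n θ)) atTop ≤
      ENNReal.ofReal K := by
    refine (liminf_le_liminf (Eventually.of_forall hF)).trans ?_
    simp
  have hfin : ∫⁻ θ in Ioc a (a + 2 * Real.pi), liminf (fun n => ENNReal.ofReal (g n θ)) atTop ≠ ⊤ :=
    ne_top_of_le_ne_top ENNReal.ofReal_ne_top (hFatou.trans hle)
  have hae := ae_lt_top (Measurable.liminf hmeas) hfin
  filter_upwards [hae] with θ hθ hT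
  have h1 : Tendsto (fun n => h (pt (R n) θ)) atTop (𝓝 0) := hT.comp hRt
  have h2 : Tendsto (fun n => ‖h (pt (R n) θ)‖) atTop (𝓝[>] 0) := by
    refine tendsto_nhdsWithin_iff.2 ⟨?_, Eventually.of_forall fun n => norm_pos_iff.2 (hne n θ)⟩
    simpa using h1.norm
  have h3 : Tendsto (fun n => Real.log ‖h (pt (R n) θ)‖) atTop atBot :=
    Real.tendsto_log_nhdsGT_zero.comp h2
  have h4 : Tendsto (fun n => g n θ) atTop atTop := by
    have h5 := tendsto_atTop_add_const_left atTop (Real.log B') (tendsto_neg_atBot_atTop.comp h3)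
    refine h5.congr fun n => ?_
    simp only [hg, Function.comp_apply]
    ring
  have h6 : Tendsto (fun n => ENNReal.ofReal (g n θ)) atTop (𝓝 ⊤) :=
    ENNReal.tendsto_ofReal_nhds_top.2 h4
  rw [h6.liminf_eq] at hθ
  exact lt_irrefl _ hθ

/-- LC-PT -/
theorem t : Pool.Agent.Y272.LC.St_Pt := by
  intro d β hd hβ c1
  -- the radius of the possible zero
  obtain ⟨r0, hr0, hr1, hz⟩ : ∃ r0 : ℝ, 0 ≤ r0 ∧ r0 < 1 ∧
      ∀ x : ℂ, r0 < ‖x‖ → ‖x‖ < 1 → β x - c1 * x ≠ 0 := by
    have key : ∀ x : ℂ, x ≠ 0 → β x - c1 * x = 0 → x⁻¹ * β x = c1 := by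
      intro x hx h1
      have h2 : β x = c1 * x := sub_eq_zero.1 h1
      rw [h2]
      field_simp
    by_cases hex : ∃ x1 : ℂ, x1 ≠ 0 ∧ ‖x1‖ < 1 ∧ β x1 - c1 * x1 = 0
    · obtain ⟨x1, hx1, hx1', hx1''⟩ := hex
      refine ⟨‖x1‖, norm_nonneg _, hx1', fun x hx hx' h1 => ?_⟩
      have hx0 : x ≠ 0 := by
        intro h2
        rw [h2, norm_zero] at hx
        exact absurd hx (not_lt.2 (norm_nonneg _))
      have h2 := hβ.inj x (mem_ball_zero_iff.2 hx') x1 (mem_ball_zero_iff.2 hx1') hx0 hx1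
        ((key x hx0 h1).trans (key x1 hx1 hx1'').symm)
      rw [h2] at hx
      exact lt_irrefl _ hx
    · refine ⟨0, le_rfl, one_pos, fun x hx hx' h1 => hex ⟨x, ?_, hx', h1⟩⟩
      exact norm_pos_iff.1 hx
  have hdiff : DifferentiableOn ℂ (fun x => β x - c1 * x) (ball 0 1) :=
    hβ.diff.sub (differentiableOn_id.const_mul c1)
  have h0 : (fun x => β x - c1 * x) 0 ≠ 0 := by
    simp [hβ.zero]
  have hB : ∀ x ∈ ball (0 : ℂ) 1, ‖(fun x => β x - c1 * x) x‖ ≤ 2 + ‖c1‖ := by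
    intro x hx
    refine (norm_sub_le _ _).trans (add_le_add (hβ.bound x hx) ?_)
    rw [norm_mul]
    exact mul_le_of_le_one_right (norm_nonneg _) (mem_ball_zero_iff.1 hx).le
  filter_upwards [riesz0 hdiff h0 hB hr0 hr1 hz] with θ hθ hT
  apply hθ
  have h1 : Tendsto (fun ρ : ℝ => pt ρ θ) (𝓝[<] 1) (𝓝 (pt 1 θ)) := by
    have h2 : Continuous fun ρ : ℝ => pt ρ θ := by
      have : (fun ρ : ℝ => pt ρ θ) = fun ρ : ℝ => (ρ : ℂ) * pt 1 θ := funext fun ρ => pt_eq ρ θ
      rw [this]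
      fun_prop
    exact (h2.tendsto 1).mono_left nhdsWithin_le_nhds
  have h3 := h1.mul (hT.sub_const c1)
  rw [sub_self, mul_zero] at h3
  refine h3.congr' ?_
  have h4 : ∀ᶠ ρ : ℝ in 𝓝[<] 1, 0 < ρ :=
    (eventually_gt_nhds (show (0 : ℝ) < 1 from one_pos)).filter_mono nhdsWithin_le_nhds
  filter_upwards [h4] with ρ hρ
  have h5 : pt ρ θ ≠ 0 := by
    rw [← norm_pos_iff, norm_pt _ _ hρ.le]
    exact hρ
  simp only [cc]
  field_simp

end Pool.Agent.Y761.LC
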